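import Mathlib

set_option autoImplicit false

/-!
The `2`-summing norm on the operators of `ℓ_∞^2` (real or complex) is not smooth at the invertible
operator with matrix `(1, 1; 1, -1)`.
-/

namespace Pool.Agent.Results.MP_0c20fd_an.NotSmoothAtInvertible

open Finset

section
variable (𝕜 : Type) [RCLike 𝕜] {X : Type} [NormedAddCommGroup X] [NormedSpace 𝕜 X]

/-- `sup_{‖x*‖ ≤ 1} (∑ |x*(x_i)|²)^{1/2}`. -/
noncomputable def weakNorm {m : ℕ} (x : Fin m → X) : ℝ :=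
  ⨆ f : {f : StrongDual 𝕜 X // ‖f‖ ≤ 1}, √(∑ i, ‖f.1 (x i)‖ ^ 2)

variable {𝕜}

/-- The `2`-summing norm of `T : X → X`: the least `C ≥ 0` such that
`(∑ ‖T x_i‖²)^{1/2} ≤ C sup_{‖x*‖ ≤ 1} (∑ |x*(x_i)|²)^{1/2}` for all finite families `(x_i)`. -/
noncomputable def piTwo (T : X →ₗ[𝕜] X) : ℝ :=
  sInf {C : ℝ | 0 ≤ C ∧ ∀ (m : ℕ) (x : Fin m → X),
    √(∑ i, ‖T (x i)‖ ^ 2) ≤ C * weakNorm 𝕜 x}

/-- The linear functional `φ` on the space of operators has norm one for the norm `piTwo`. -/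
def NormOne (φ : (X →ₗ[𝕜] X) →ₗ[𝕜] 𝕜) : Prop :=
  IsLUB {r : ℝ | ∃ S : X →ₗ[𝕜] X, piTwo S ≤ 1 ∧ r = ‖φ S‖} 1

/-- The space of operators of `X` with the norm `piTwo` is smooth at `T`: there is exactly one
functional of norm one with `φ T = π₂ (T)`. -/
def SmoothAt (T : X →ₗ[𝕜] X) : Prop :=
  ∃! φ : (X →ₗ[𝕜] X) →ₗ[𝕜] 𝕜, NormOne φ ∧ φ T = ((piTwo T : ℝ) : 𝕜)

lemma bdd {m : ℕ} (x : Fin m → X) :
    BddAbove (Set.range fun f : {f : StrongDual 𝕜 X // ‖f‖ ≤ 1} => √(∑ i, ‖f.1 (x i)‖ ^ 2)) := by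
  refine ⟨√(∑ i, ‖x i‖ ^ 2), ?_⟩
  rintro _ ⟨f, rfl⟩
  refine Real.sqrt_le_sqrt (sum_le_sum fun i _ => ?_)
  have h := f.1.le_opNorm (x i)
  have h1 : ‖f.1 (x i)‖ ≤ ‖x i‖ := h.trans (by
    have := mul_le_mul_of_nonneg_right f.2 (norm_nonneg (x i)); rwa [one_mul] at this)
  exact pow_le_pow_left₀ (norm_nonneg _) h1 2

lemma le_weakNorm {m : ℕ} (x : Fin m → X) (f : StrongDual 𝕜 X) (hf : ‖f‖ ≤ 1) :
    ∑ i, ‖f (x i)‖ ^ 2 ≤ weakNorm 𝕜 x ^ 2 := by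
  have h : √(∑ i, ‖f (x i)‖ ^ 2) ≤ weakNorm 𝕜 x := le_ciSup (bdd x) ⟨f, hf⟩
  have h0 : 0 ≤ ∑ i, ‖f (x i)‖ ^ 2 := sum_nonneg fun i _ => by positivity
  calc ∑ i, ‖f (x i)‖ ^ 2 = √(∑ i, ‖f (x i)‖ ^ 2) ^ 2 := (Real.sq_sqrt h0).symm
    _ ≤ _ := pow_le_pow_left₀ (Real.sqrt_nonneg _) h 2

lemma weakNorm_nonneg {m : ℕ} (x : Fin m → X) : 0 ≤ weakNorm 𝕜 x :=
  Real.iSup_nonneg fun _ => Real.sqrt_nonneg _

lemma weakNorm_one_le (x : X) : weakNorm 𝕜 (fun _ : Fin 1 => x) ≤ ‖x‖ := by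
  have : Nonempty {f : StrongDual 𝕜 X // ‖f‖ ≤ 1} := ⟨⟨0, by simp⟩⟩
  refine ciSup_le fun f => ?_
  simp only [univ_unique, sum_const, card_singleton, one_smul]
  rw [Real.sqrt_sq (norm_nonneg _)]
  exact (f.1.le_opNorm x).trans (by
    have := mul_le_mul_of_nonneg_right f.2 (norm_nonneg x); rwa [one_mul] at this)

end

section
variable (𝕜 : Type) [RCLike 𝕜]

/-- The plane `ℓ_∞^2`. -/
abbrev L : Type := Fin 2 → 𝕜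

variable {𝕜}

lemma coord_sum {m : ℕ} (x : Fin m → L 𝕜) :
    ∑ i, (‖x i 0‖ ^ 2 + ‖x i 1‖ ^ 2) ≤ 2 * weakNorm 𝕜 x ^ 2 := by
  have h : ∀ j : Fin 2, ∑ i, ‖x i j‖ ^ 2 ≤ weakNorm 𝕜 x ^ 2 := by
    intro j
    refine le_weakNorm x (ContinuousLinearMap.proj j) ?_
    refine ContinuousLinearMap.opNorm_le_bound _ zero_le_one fun y => ?_
    rw [one_mul]
    exact norm_le_pi_norm y j
  rw [sum_add_distrib]
  linarith [h 0, h 1]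

lemma norm_sq_le (y : L 𝕜) : ‖y‖ ^ 2 ≤ ‖y 0‖ ^ 2 + ‖y 1‖ ^ 2 := by
  have h : ‖y‖ ≤ √(‖y 0‖ ^ 2 + ‖y 1‖ ^ 2) := by
    refine (pi_norm_le_iff_of_nonneg (Real.sqrt_nonneg _)).2 fun j => ?_
    refine Real.le_sqrt_of_sq_le ?_
    fin_cases j <;> simp
  calc ‖y‖ ^ 2 ≤ √(‖y 0‖ ^ 2 + ‖y 1‖ ^ 2) ^ 2 := pow_le_pow_left₀ (norm_nonneg _) h 2
    _ = _ := Real.sq_sqrt (by positivity)

/-- A criterion for a bound of the `2`-summing norm. -/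
lemma mem_of_bound (S : L 𝕜 →ₗ[𝕜] L 𝕜) (C : ℝ) (hC : 0 ≤ C)
    (h : ∀ y : L 𝕜, 2 * ‖S y‖ ^ 2 ≤ C ^ 2 * (‖y 0‖ ^ 2 + ‖y 1‖ ^ 2)) :
    0 ≤ C ∧ ∀ (m : ℕ) (x : Fin m → L 𝕜), √(∑ i, ‖S (x i)‖ ^ 2) ≤ C * weakNorm 𝕜 x := by
  refine ⟨hC, fun m x => ?_⟩
  refine Real.sqrt_le_iff.2 ⟨mul_nonneg hC (weakNorm_nonneg x), ?_⟩
  have h1 : 2 * ∑ i, ‖S (x i)‖ ^ 2 ≤ C ^ 2 * ∑ i, (‖x i 0‖ ^ 2 + ‖x i 1‖ ^ 2) := by
    rw [mul_sum, mul_sum]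
    exact sum_le_sum fun i _ => h (x i)
  have h2 := mul_le_mul_of_nonneg_left (coord_sum x) (sq_nonneg C)
  nlinarith

lemma bddBelow (S : L 𝕜 →ₗ[𝕜] L 𝕜) :
    BddBelow {C : ℝ | 0 ≤ C ∧ ∀ (m : ℕ) (x : Fin m → L 𝕜),
      √(∑ i, ‖S (x i)‖ ^ 2) ≤ C * weakNorm 𝕜 x} := ⟨0, fun _ h => h.1⟩

lemma nonempty (S : L 𝕜 →ₗ[𝕜] L 𝕜) :
    {C : ℝ | 0 ≤ C ∧ ∀ (m : ℕ) (x : Fin m → L 𝕜),
      √(∑ i, ‖S (x i)‖ ^ 2) ≤ C * weakNorm 𝕜 x}.Nonempty := by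
  refine ⟨2 * ‖LinearMap.toContinuousLinearMap S‖, mem_of_bound S _ (by positivity) fun y => ?_⟩
  have h1 : ‖S y‖ ≤ ‖LinearMap.toContinuousLinearMap S‖ * ‖y‖ :=
    (LinearMap.toContinuousLinearMap S).le_opNorm y
  have h2 : ‖S y‖ ^ 2 ≤ ‖LinearMap.toContinuousLinearMap S‖ ^ 2 * ‖y‖ ^ 2 := by
    rw [← mul_pow]; exact pow_le_pow_left₀ (norm_nonneg _) h1 2
  have h3 := mul_le_mul_of_nonneg_left (norm_sq_le y)
    (sq_nonneg ‖LinearMap.toContinuousLinearMap S‖)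
  nlinarith [sq_nonneg ‖S y‖]

lemma piTwo_le (S : L 𝕜 →ₗ[𝕜] L 𝕜) (C : ℝ) (hC : 0 ≤ C)
    (h : ∀ (m : ℕ) (x : Fin m → L 𝕜), √(∑ i, ‖S (x i)‖ ^ 2) ≤ C * weakNorm 𝕜 x) :
    piTwo S ≤ C := csInf_le (bddBelow S) ⟨hC, h⟩

/-- `‖S y‖ ≤ π₂ (S)` for unit vectors `y`. -/
lemma norm_apply_le (S : L 𝕜 →ₗ[𝕜] L 𝕜) (y : L 𝕜) (hy : ‖y‖ ≤ 1) : ‖S y‖ ≤ piTwo S := by
  refine le_csInf (nonempty S) fun C hC => ?_
  have h := hC.2 1 (fun _ => y)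
  simp only [univ_unique, sum_const, card_singleton, one_smul] at h
  rw [Real.sqrt_sq (norm_nonneg _)] at h
  refine h.trans ?_
  have h1 : weakNorm 𝕜 (fun _ : Fin 1 => y) ≤ 1 := (weakNorm_one_le y).trans hy
  have h2 := mul_le_mul_of_nonneg_left h1 hC.1
  rwa [mul_one] at h2

/-- The functional `S ↦ (S v)_j`. -/
def fn (v : L 𝕜) (j : Fin 2) : (L 𝕜 →ₗ[𝕜] L 𝕜) →ₗ[𝕜] 𝕜 where
  toFun S := S v j
  map_add' S T := by simp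
  map_smul' c S := by simp

lemma fn_apply (v : L 𝕜) (j : Fin 2) (S : L 𝕜 →ₗ[𝕜] L 𝕜) : fn v j S = S v j := rfl

/-- The operator `x ↦ x_0 e_j`. -/
def rankOne (j : Fin 2) : L 𝕜 →ₗ[𝕜] L 𝕜 where
  toFun x := fun i => if i = j then x 0 else 0
  map_add' x y := by ext i; by_cases h : i = j <;> simp [h]
  map_smul' c x := by ext i; by_cases h : i = j <;> simp [h]

lemma rankOne_le (j : Fin 2) : piTwo (rankOne (𝕜 := 𝕜) j) ≤ 1 := by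
  refine piTwo_le _ 1 zero_le_one fun m x => ?_
  rw [one_mul]
  refine Real.sqrt_le_iff.2 ⟨weakNorm_nonneg x, ?_⟩
  refine le_trans (sum_le_sum fun i _ => ?_) (le_weakNorm x (ContinuousLinearMap.proj 0) ?_)
  · refine pow_le_pow_left₀ (norm_nonneg _) ?_ 2
    refine (pi_norm_le_iff_of_nonneg (norm_nonneg _)).2 fun i' => ?_
    change ‖(if i' = j then x i 0 else 0)‖ ≤ ‖x i 0‖
    split_ifs <;> simp
  · refine ContinuousLinearMap.opNorm_le_bound _ zero_le_one fun y => ?_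
    rw [one_mul]
    exact norm_le_pi_norm y 0

lemma normOne_fn (v : L 𝕜) (hv : ‖v‖ ≤ 1) (hv0 : v 0 = 1) (j : Fin 2) : NormOne (fn v j) := by
  constructor
  · rintro r ⟨S, hS, rfl⟩
    exact (norm_le_pi_norm (S v) j).trans ((norm_apply_le S v hv).trans hS)
  · intro b hb
    refine hb ⟨rankOne j, rankOne_le j, ?_⟩
    rw [fn_apply]
    change 1 = ‖(if j = j then v 0 else 0)‖
    rw [if_pos rfl, hv0, norm_one]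

/-- The operator `(x_0, x_1) ↦ (x_0 + x_1, x_0 - x_1)`. -/
def T : L 𝕜 →ₗ[𝕜] L 𝕜 where
  toFun x := ![x 0 + x 1, x 0 - x 1]
  map_add' x y := by ext i; fin_cases i <;> simp <;> ring
  map_smul' c x := by ext i; fin_cases i <;> simp <;> ring

lemma T_zero (x : L 𝕜) : T x 0 = x 0 + x 1 := rfl

lemma T_one (x : L 𝕜) : T x 1 = x 0 - x 1 := rfl

lemma T_T (x : L 𝕜) : T (T x) = (2 : 𝕜) • x := by
  ext i
  fin_cases i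
  · change T x 0 + T x 1 = 2 * x 0
    rw [T_zero, T_one]; ring
  · change T x 0 - T x 1 = 2 * x 1
    rw [T_zero, T_one]; ring

lemma T_le : piTwo (T : L 𝕜 →ₗ[𝕜] L 𝕜) ≤ 2 := by
  have h := mem_of_bound (T : L 𝕜 →ₗ[𝕜] L 𝕜) 2 zero_le_two fun y => ?_
  · exact piTwo_le _ 2 zero_le_two h.2
  · have h1 : ‖(T y : L 𝕜)‖ ≤ ‖y 0‖ + ‖y 1‖ := by
      refine (pi_norm_le_iff_of_nonneg (by positivity)).2 fun j => ?_
      fin_cases j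
      · exact norm_add_le _ _
      · exact norm_sub_le _ _
    have h2 := pow_le_pow_left₀ (norm_nonneg _) h1 2
    nlinarith [sq_nonneg (‖y 0‖ - ‖y 1‖)]

/-- The vector `(1, 1)`. -/
def v1 : L 𝕜 := ![1, 1]

/-- The vector `(1, -1)`. -/
def v2 : L 𝕜 := ![1, -1]

lemma norm_v1 : ‖(v1 : L 𝕜)‖ ≤ 1 := by
  refine (pi_norm_le_iff_of_nonneg zero_le_one).2 fun j => ?_
  fin_cases j <;> simp [v1]

lemma norm_v2 : ‖(v2 : L 𝕜)‖ ≤ 1 := by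
  refine (pi_norm_le_iff_of_nonneg zero_le_one).2 fun j => ?_
  fin_cases j <;> simp [v2]

lemma fn1_T : fn (v1 : L 𝕜) 0 T = 2 := by
  rw [fn_apply, T_zero]; simp [v1]; norm_num

lemma fn2_T : fn (v2 : L 𝕜) 1 T = 2 := by
  rw [fn_apply, T_one]; simp [v2]; norm_num

lemma piTwo_T : piTwo (T : L 𝕜 →ₗ[𝕜] L 𝕜) = 2 := by
  refine le_antisymm T_le ?_
  have h := (norm_le_pi_norm ((T : L 𝕜 →ₗ[𝕜] L 𝕜) v1) 0).trans (norm_apply_le T v1 norm_v1)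
  rw [← fn_apply, fn1_T] at h
  simpa using h

lemma fn_ne : fn (v1 : L 𝕜) 0 ≠ fn (v2 : L 𝕜) 1 := by
  intro h
  have h1 : fn (v1 : L 𝕜) 0 (rankOne 0) = fn (v2 : L 𝕜) 1 (rankOne 0) := by rw [h]
  rw [fn_apply, fn_apply] at h1
  change (if (0 : Fin 2) = 0 then (v1 : L 𝕜) 0 else 0) =
    (if (1 : Fin 2) = 0 then (v2 : L 𝕜) 0 else 0) at h1
  simp [v1] at h1

end

/-- Over `𝕜 = ℝ` and over `𝕜 = ℂ` there are a finite-dimensional Banach space `X` and an invertible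
operator `T` on `X` such that the space of operators of `X` with the `2`-summing norm is not
smooth at `T`: two different functionals of norm one attain the value `π₂ (T)` at `T`. -/
theorem result (𝕜 : Type) [RCLike 𝕜] :
    ∃ (X : Type) (_ : NormedAddCommGroup X) (_ : NormedSpace 𝕜 X) (T : X →ₗ[𝕜] X),
      FiniteDimensional 𝕜 X ∧ Function.Bijective T ∧
      (∃ φ ψ : (X →ₗ[𝕜] X) →ₗ[𝕜] 𝕜, φ ≠ ψ ∧ NormOne φ ∧ NormOne ψ ∧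
        φ T = ((piTwo T : ℝ) : 𝕜) ∧ ψ T = ((piTwo T : ℝ) : 𝕜)) ∧
      ¬ SmoothAt T := by
  have hφ : fn (v1 : L 𝕜) 0 T = ((piTwo (T : L 𝕜 →ₗ[𝕜] L 𝕜) : ℝ) : 𝕜) := by
    rw [fn1_T, piTwo_T]; exact (RCLike.ofReal_ofNat 2).symm
  have hψ : fn (v2 : L 𝕜) 1 T = ((piTwo (T : L 𝕜 →ₗ[𝕜] L 𝕜) : ℝ) : 𝕜) := by
    rw [fn2_T, piTwo_T]; exact (RCLike.ofReal_ofNat 2).symm
  have h1 : NormOne (fn (v1 : L 𝕜) 0) := normOne_fn v1 norm_v1 (by simp [v1]) 0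
  have h2 : NormOne (fn (v2 : L 𝕜) 1) := normOne_fn v2 norm_v2 (by simp [v2]) 1
  refine ⟨L 𝕜, inferInstance, inferInstance, T, inferInstance, ⟨?_, ?_⟩,
    ⟨fn v1 0, fn v2 1, fn_ne, h1, h2, hφ, hψ⟩, ?_⟩
  · intro x y hxy
    have h : (2 : 𝕜) • x = (2 : 𝕜) • y := by rw [← T_T, ← T_T, hxy]
    exact smul_right_injective _ two_ne_zero h
  · intro y
    refine ⟨(2 : 𝕜)⁻¹ • T y, ?_⟩
    rw [map_smul, T_T, smul_smul, inv_mul_cancel₀ two_ne_zero, one_smul]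
  · intro h
    exact fn_ne (h.unique ⟨h1, hφ⟩ ⟨h2, hψ⟩)

end Pool.Agent.Results.MP_0c20fd_an.NotSmoothAtInvertible
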